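import Pool.Agent.N329.EXP1
import Pool.Agent.N329.EXP4

/-!
# MP_952e1b_co, Question 2, both types

* Type II: TRUE.  For every finite colouring of `ℕ` some colour class is an exponential IP set of
  type II (in particular Question 1 for type II is true as well).
* Type I: FALSE.  For every `r ≥ 3` there is a partition of `ℕ` into `r` (nonempty) cells none of
  which is an exponential IP set of type I; in fact no cell contains `a, b, a ^ b` with
  `2 ≤ a ≤ b`.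
-/

namespace Pool.Agent.Results.MP_952e1b_co.BothTypes

open Pool.Agent.N329.EXP

/-- `FE1 x n` is the set `FE^I_n(X)` for `X = {x 0 < x 1 < x 2 < ...}`. -/
def FE1 (x : ℕ → ℕ) : ℕ → Set ℕ
  | 0 => {x 0}
  | (n + 1) => {z | ∃ y ∈ FE1 x n, z = y ^ x (n + 1)} ∪ FE1 x n ∪ {x (n + 1)}

/-- `FE2 x n` is the set `FE^II_n(X)` for `X = {x 0 < x 1 < x 2 < ...}`. -/
def FE2 (x : ℕ → ℕ) : ℕ → Set ℕ
  | 0 => {x 0}
  | (n + 1) => {z | ∃ y ∈ FE2 x n, z = x (n + 1) ^ y} ∪ FE2 x n ∪ {x (n + 1)}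

/-- `C` is an exponential IP set of type I. -/
def IsExpIP1 (C : Set ℕ) : Prop := ∃ x : ℕ → ℕ, StrictMono x ∧ (⋃ n, FE1 x n) ⊆ C

/-- `C` is an exponential IP set of type II. -/
def IsExpIP2 (C : Set ℕ) : Prop := ∃ x : ℕ → ℕ, StrictMono x ∧ (⋃ n, FE2 x n) ⊆ C

lemma mem_FE1_self (x : ℕ → ℕ) (n : ℕ) : x n ∈ FE1 x n := by
  cases n with
  | zero => exact rfl
  | succ n => exact Or.inr rfl

lemma typeI (r : ℕ) (hr : 3 ≤ r) : ∃ c : ℕ → Fin r, Function.Surjective c ∧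
    (∀ a b : ℕ, 2 ≤ a → a ≤ b → c (a ^ b) ≠ c b) ∧ ∀ i, ¬ IsExpIP1 (c ⁻¹' {i}) := by
  refine ⟨levCol r hr, levCol_surjective r hr, fun a b ha hab => levCol_pow_ne r hr ha hab, ?_⟩
  rintro i ⟨x, hx, hsub⟩
  have h2 : 2 ≤ x 2 := hx.le_apply
  have h23 : x 2 ≤ x 3 := (hx (by norm_num)).le
  have m3 : x 3 ∈ levCol r hr ⁻¹' {i} := hsub (Set.mem_iUnion.2 ⟨3, mem_FE1_self x 3⟩)
  have m23 : x 2 ^ x 3 ∈ levCol r hr ⁻¹' {i} :=
    hsub (Set.mem_iUnion.2 ⟨3, Or.inl (Or.inl ⟨x 2, mem_FE1_self x 2, rfl⟩)⟩)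
  exact levCol_pow_ne r hr h2 h23 ((Set.mem_singleton_iff.1 m23).trans
    (Set.mem_singleton_iff.1 m3).symm)

lemma typeII {κ : Type*} [Finite κ] (c : ℕ → κ) (N : ℕ) : ∃ i, ∃ x : ℕ → ℕ, StrictMono x ∧
    N < x 0 ∧ (⋃ n, FE2 x n) ⊆ c ⁻¹' {i} := by
  obtain ⟨C, x, Y, hx, hN, h1, hcol, hmono, hpow⟩ := exists_seq c N
  have h1' : ∀ n, 1 ∈ Y n := by
    intro n
    induction n with
    | zero => exact h1
    | succ n ih => exact hmono n ih
  have hself : ∀ n, x n ∈ Y (n + 1) ∧ c (x n) = C := by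
    intro n
    have h2 := hpow n 1 (h1' n)
    have h3 := hcol n 1 (h1' n)
    rw [pow_one] at h2 h3
    exact ⟨h2, h3⟩
  have key : ∀ n, ∀ z ∈ FE2 x n, z ∈ Y (n + 1) ∧ c z = C := by
    intro n
    induction n with
    | zero =>
      rintro z hz
      have hz' : z = x 0 := hz
      subst hz'
      exact hself 0
    | succ n ih =>
      rintro z ((⟨y, hy, rfl⟩ | hz) | hz)
      · exact ⟨hpow (n + 1) y (ih y hy).1, hcol (n + 1) y (ih y hy).1⟩
      · exact ⟨hmono (n + 1) (ih z hz).1, (ih z hz).2⟩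
      · have hz' : z = x (n + 1) := hz
        subst hz'
        exact hself (n + 1)
  refine ⟨C, x, hx, hN, ?_⟩
  intro z hz
  obtain ⟨n, hn⟩ := Set.mem_iUnion.1 hz
  exact (key n z hn).2

/-- **Question 2 for both types.**  Type II: every colouring of `ℕ` with finitely many colours has
a colour class which is an exponential IP set of type II (and the witness `X` can be taken beyond
any bound).  Type I: for every `r ≥ 3` there is a partition of `ℕ` into `r` nonempty cells such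
that no cell is an exponential IP set of type I, and no cell contains both `b` and `a ^ b` when
`2 ≤ a ≤ b`. -/
theorem result :
    (∀ (r : ℕ) (c : ℕ → Fin r), ∃ i, IsExpIP2 (c ⁻¹' {i})) ∧
    (∀ (r : ℕ) (c : ℕ → Fin r) (N : ℕ), ∃ i, ∃ x : ℕ → ℕ, StrictMono x ∧ N < x 0 ∧
      (⋃ n, FE2 x n) ⊆ c ⁻¹' {i}) ∧
    (∀ r : ℕ, 3 ≤ r → ∃ c : ℕ → Fin r, Function.Surjective c ∧
      (∀ a b : ℕ, 2 ≤ a → a ≤ b → c (a ^ b) ≠ c b) ∧ ∀ i, ¬ IsExpIP1 (c ⁻¹' {i})) := by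
  refine ⟨?_, fun r c N => typeII c N, typeI⟩
  intro r c
  obtain ⟨i, x, hx, -, h⟩ := typeII c 0
  exact ⟨i, x, hx, h⟩

end Pool.Agent.Results.MP_952e1b_co.BothTypes
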